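import Pool.Agent.TH706.SD.Base
import Pool.Agent.W895.TN.Core

set_option autoImplicit false
set_option linter.unusedSectionVars false

/-!
# Few common zeros of the forms are certified by one program with a stack

(after `Pool.Agent.W952.Core` and `Pool.Agent.W895.TN.Core`)
-/

open Finset

namespace Pool.Agent.TH706.TS

open Pool.Agent.W952

open Pool.Agent.H822R5.LN Pool.Agent.W952.Mx Pool.Agent.W952.Fr Pool.Agent.W952.Hub
open Pool.Agent.W952.Ap Pool.Agent.W952.LT
open Pool.Agent.H554R2.Sem Pool.Agent.H554R2.Coin Pool.Agent.H554R2.Lin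
open Pool.Agent.W896.PD (PP Act)
open Pool.Agent.TH706.CD (OutIn U partition card_info)

open Classical in
/-- A program with a stack which within `k N` queries never accepts unless all the forms vanish
accepts within `k N` queries an exponentially small fraction of the common zeros only. -/
theorem core2 (k : ℕ) : ∃ p l D : ℕ, 3 ≤ p ∧ 0 < D ∧ ∀ (m : ℕ) [NeZero m], D ≤ m →
    ∀ P' : PP (Fin (p * p * nr 1 m)) Bool,
    Fintype.card P'.State ≤ 2 ^ (p * p * nr 1 m / D) →
    ∀ τ ≤ k * (p * p * nr 1 m),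
    (∀ x : Pt (p * p * nr 1 m), OutIn P' τ true x → ∀ γ : Mu p l × Rest 1 m, Fm γ x = 0) →
    (univ.filter (fun x : Pt (p * p * nr 1 m) => OutIn P' τ true x)).card *
        2 ^ (p * p * nr 1 m / D) <
      (univ.filter (fun x : Pt (p * p * nr 1 m) =>
        ∀ γ : Mu p l × Rest 1 m, Fm γ x = 0)).card := by
  classical
  obtain ⟨Q, r, N, hQ, hr, hN, hmain⟩ := main_rect (6 * k + 3)
  obtain ⟨l, hl⟩ := words (2 * (2 * (2 * (2 * Q))))
  obtain ⟨W, hW⟩ : ∃ c, c = Fintype.card (Wd l) := ⟨_, rfl⟩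
  obtain ⟨p, hpge, hp⟩ := Nat.exists_infinite_primes
    ((2 * (2 * Q)) * (2 * (2 * Q)) + 32 * N * (W * (W * W)) + W + 4)
  have hp3 : 3 ≤ p := by omega
  have hp0 : 0 < p := by omega
  obtain ⟨C0, hC0, hcl⟩ := Pool.Agent.TH706.SD.err2 k r (2 * N) 1 (by omega)
  obtain ⟨D, hD⟩ : ∃ c, c = C0 + r + N + 1 := ⟨_, rfl⟩
  refine ⟨p, l, D, hp3, by omega, ?_⟩
  intro m _ hm
  set N' := p * p * nr 1 m with hN'
  intro P' hPs τ hτ hPf
  by_contra hneg
  rw [not_lt] at hneg
  have hm1 : 1 ≤ m := by omega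
  have hnr : nr 1 m = (1 * 1) * ((m * m) * (m * m)) := nr_eq
  have hmN' : m ≤ N' := by
    rw [hN', hnr]
    have h1 : m ≤ m * m := Nat.le_mul_of_pos_left m (by omega)
    have h2 : m * m ≤ (m * m) * (m * m) := Nat.le_mul_of_pos_left _ (by positivity)
    have h4 : 1 * 1 * ((m * m) * (m * m)) ≤ p * p * (1 * 1 * ((m * m) * (m * m))) :=
      Nat.le_mul_of_pos_left _ (by positivity)
    omega
  have hN'0 : 0 < N' := by omega
  set G0 : Finset (Pt N') := univ.filter (fun x : Pt N' => ∀ γ : Mu p l × Rest 1 m, Fm γ x = 0)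
    with hG0
  set G1 : Finset (Pt N') := univ.filter (fun x : Pt N' => OutIn P' τ true x) with hG1
  have hzeros : 2 ^ N' ≤ 2 ^ (2 * Fintype.card (Mu p l × Rest 1 m)) * G0.card := by
    have := RM.zeros (Γ := Mu p l × Rest 1 m) (fun γ => Fm (M := 1) (m := m) γ)
      (fun γ => Fm_deg γ) (fun _ => false) (fun γ => Fm_zero γ)
    rw [Fintype.card_fin] at this
    convert this
  -- blocks
  obtain ⟨h, hh⟩ : ∃ h, h = (r - 1) / 2 + 1 := ⟨_, rfl⟩
  obtain ⟨t, ht⟩ : ∃ t, t = τ / h + 1 := ⟨_, rfl⟩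
  have ht1 : 1 ≤ t := by rw [ht]; exact Nat.le_add_left _ _
  have hh1 : 1 ≤ h := by rw [hh]; exact Nat.le_add_left _ _
  have hτ' : τ ≤ k * N' := hτ
  have hrh : r ≤ 2 * h := by omega
  have hτt : τ < h * t := by
    have h1 := Nat.lt_mul_div_succ τ hh1
    rw [ht]; exact h1
  obtain ⟨R, rfl⟩ : ∃ R, r = R + 1 := ⟨r - 1, by omega⟩
  have hR : 2 * (τ / t) ≤ R := by
    have h1 : τ / t < h := by
      rw [Nat.div_lt_iff_lt_mul ht1]
      exact hτt
    omega
  have hrN : R + 1 ≤ N' := by omega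
  have hs2 : (R + 1) * (3 * t) ≤ (6 * k + 3) * N' := by
    have h1 := Nat.mul_div_le τ h
    calc (R + 1) * (3 * t) = 3 * ((R + 1) * (τ / h)) + 3 * (R + 1) := by rw [ht]; ring
      _ ≤ 3 * (2 * h * (τ / h)) + 3 * N' :=
        Nat.add_le_add (Nat.mul_le_mul_left _ (Nat.mul_le_mul_right _ hrh))
          (Nat.mul_le_mul_left _ hrN)
      _ = 6 * (h * (τ / h)) + 3 * N' := by ring
      _ ≤ 6 * (k * N') + 3 * N' := by omega
      _ = _ := by ring
  obtain ⟨κ, hκ⟩ := partition (t := t) P' ht1 τ R hR true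
  -- the largest class
  obtain ⟨c, hcK⟩ : ∃ c, c = Fintype.card (U P'.State τ × (Fin R → Option (U P'.State τ))) :=
    ⟨_, rfl⟩
  have hpig : ∃ y, G1.card ≤ c * (G1.filter (fun x => κ x = y)).card := by
    by_contra hcon
    push Not at hcon
    have h1 := Finset.card_eq_sum_card_fiberwise (f := κ) (s := G1) (t := univ)
      (fun x _ => Finset.mem_coe.2 (Finset.mem_univ _))
    have hne : Nonempty (U P'.State τ × (Fin R → Option (U P'.State τ))) :=
      ⟨κ (fun _ => false)⟩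
    have h2 : ∑ y : U P'.State τ × (Fin R → Option (U P'.State τ)),
        c * (G1.filter (fun x => κ x = y)).card <
        ∑ _y : U P'.State τ × (Fin R → Option (U P'.State τ)), G1.card :=
      Finset.sum_lt_sum_of_nonempty Finset.univ_nonempty fun y _ => hcon y
    rw [← Finset.mul_sum, ← h1, Finset.sum_const, Finset.card_univ, smul_eq_mul, hcK] at h2
    exact Nat.lt_irrefl _ h2
  obtain ⟨y, hy⟩ := hpig
  obtain ⟨Bk, hB⟩ := hκ y
  have hBG : (G1.filter (fun x => κ x = y)).card ≤ Bk.K.card := by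
    apply Finset.card_le_card
    intro x hx
    rw [hG1, Finset.filter_filter, Finset.mem_filter] at hx
    rw [hB, Finset.mem_filter]
    exact hx
  have hc : c * 2 ^ (N' / D) ≤ 2 ^ (N' / (2 * N)) := by
    have h1 := card_info (S := P'.State) τ R (2 ^ (N' / D)) hPs
    rw [← hcK] at h1
    have h2 := hcl D (by omega) N' (by omega) τ hτ
    rw [mul_one] at h2
    exact (Nat.mul_le_mul_right _ h1).trans h2
  -- sizes
  have hΓ : Fintype.card (Mu p l × Rest 1 m) ≤ W * (W * W) * (8 * p) * nr 1 m := by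
    rw [hW]
    exact card_gm p l 1 m (by omega)
  have hΓ2 : 2 * (N * (2 * Fintype.card (Mu p l × Rest 1 m))) ≤ N' := by
    have hpW : 32 * N * (W * (W * W)) ≤ p := by omega
    calc 2 * (N * (2 * Fintype.card (Mu p l × Rest 1 m))) ≤
        2 * (N * (2 * (W * (W * W) * (8 * p) * nr 1 m))) :=
          Nat.mul_le_mul_left _ (Nat.mul_le_mul_left _ (Nat.mul_le_mul_left _ hΓ))
      _ = (32 * N * (W * (W * W))) * (p * nr 1 m) := by ring
      _ ≤ p * (p * nr 1 m) := Nat.mul_le_mul_right _ hpW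
      _ = N' := by rw [hN']; ring
  have hexp : 2 * Fintype.card (Mu p l × Rest 1 m) + N' / (2 * N) ≤ N' / N := by
    rw [Nat.le_div_iff_mul_le hN]
    have h1 : (2 * Fintype.card (Mu p l × Rest 1 m) + N' / (2 * N)) * N =
        N * (2 * Fintype.card (Mu p l × Rest 1 m)) + N' / (2 * N) * N := by ring
    have h2 := Nat.div_mul_le_self N' (2 * N)
    have h3 : 2 * (N' / (2 * N) * N) = N' / (2 * N) * (2 * N) := by ring
    omega
  have hKbig : 2 ^ N' ≤ 2 ^ (N' / N) * Bk.K.card := by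
    calc 2 ^ N' ≤ 2 ^ (2 * Fintype.card (Mu p l × Rest 1 m)) * G0.card := hzeros
      _ ≤ 2 ^ (2 * Fintype.card (Mu p l × Rest 1 m)) * (G1.card * 2 ^ (N' / D)) :=
          Nat.mul_le_mul_left _ hneg
      _ ≤ 2 ^ (2 * Fintype.card (Mu p l × Rest 1 m)) *
          ((c * Bk.K.card) * 2 ^ (N' / D)) :=
          Nat.mul_le_mul_left _ (Nat.mul_le_mul_right _ (hy.trans (Nat.mul_le_mul_left _ hBG)))
      _ = 2 ^ (2 * Fintype.card (Mu p l × Rest 1 m)) * (c * 2 ^ (N' / D)) * Bk.K.card := by ring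
      _ ≤ 2 ^ (2 * Fintype.card (Mu p l × Rest 1 m)) * 2 ^ (N' / (2 * N)) * Bk.K.card :=
          Nat.mul_le_mul_right _ (Nat.mul_le_mul_left _ hc)
      _ = 2 ^ (2 * Fintype.card (Mu p l × Rest 1 m) + N' / (2 * N)) * Bk.K.card := by
          rw [← pow_add]
      _ ≤ 2 ^ (N' / N) * Bk.K.card :=
          Nat.mul_le_mul_right _ (Nat.pow_le_pow_right (by norm_num) hexp)
  obtain ⟨a, b, g, ha, hb, hga, hgb, hR⟩ := hmain N' (by omega) (3 * t) hs2 Bk hKbig
  have hKform : ∀ x ∈ Bk.K, ∀ γ : Mu p l × Rest 1 m, Fm γ x = 0 := by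
    intro x hx γ
    rw [hB, Finset.mem_filter] at hx
    exact hPf x hx.2.1 γ
  have hl1 := hl 1
  have hl2 := hl m
  refine no_rect (q := 2 * Q) hp hp3 (by omega) (Mix.weaken hl1 (by omega)) hl2 Bk.K a b g hR
    hKform ?_ ?_
  · calc p * p * nr 1 m ≤ Q * a := ha
      _ ≤ Q * (2 * (a - g)) := Nat.mul_le_mul_left _ (by omega)
      _ = 2 * Q * (a - g) := by ring
  · calc p * p * nr 1 m ≤ Q * b := hb
      _ ≤ Q * (2 * (b - g)) := Nat.mul_le_mul_left _ (by omega)
      _ = 2 * Q * (b - g) := by ring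

end Pool.Agent.TH706.TS
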