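import Pool.Agent.W896.PD.Defs
import Pool.Agent.W952.Sat.Main

set_option autoImplicit false
set_option linter.unusedSectionVars false

/-!
# Nondeterministic programs with a stack and few guesses as families of deterministic programs
-/

open Finset

namespace Pool.Agent.TH706.TS

open Pool.Agent.W952.Sat
open Pool.Agent.W952.Ap Pool.Agent.W952.Fr
open Pool.Agent.H554R2.Sem Pool.Agent.H554R2.Coin
open Pool.Agent.W896.PD (PP Act)

/-- What a nondeterministic program with a stack does in a node: it queries a position of the word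
and goes on to a node which depends on the symbol there, it guesses a bit, it pushes or pops a
symbol, or it stops (`true`: it accepts). -/
inductive Step (n : ℕ) (Q S : Type)
  | query (i : Fin n) (nxt : Sym → Q)
  | guess (nxt : Bool → Q)
  | push (a : S) (q : Q)
  | pop (nxt : S → Q)
  | stop (b : Bool)

/-- Nondeterministic programs with a stack that read words of length `n`.  There is no restriction
on the order and on the repetition of the queries, on the number of steps, or on the height of the
stack; the stack symbols may be the elements of any type. -/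
structure NSProg (n : ℕ) where
  /-- the nodes -/
  Node : Type
  /-- there are finitely many of them -/
  [fintype : Fintype Node]
  /-- the stack symbols -/
  Stk : Type
  /-- the first node -/
  start : Node
  /-- what is done in a node -/
  act : Node → Step n Node Stk

attribute [instance] NSProg.fintype

/-- on the word `w` the program has an accepting computation from the node `s` with the stack `σ`,
with `t` queries and `g` guesses (and any number of pushes and pops) -/
inductive NSProg.Run {n : ℕ} (P : NSProg n) (w : Fin n → Sym) :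
    P.Node → List P.Stk → ℕ → ℕ → Prop
  | accept {s : P.Node} {σ : List P.Stk} (h : P.act s = Step.stop true) : P.Run w s σ 0 0
  | query {s : P.Node} {σ : List P.Stk} {i : Fin n} {nxt : Sym → P.Node} {t g : ℕ}
      (h : P.act s = Step.query i nxt) (r : P.Run w (nxt (w i)) σ t g) : P.Run w s σ (t + 1) g
  | guess {s : P.Node} {σ : List P.Stk} {nxt : Bool → P.Node} {t g : ℕ} (b : Bool)
      (h : P.act s = Step.guess nxt) (r : P.Run w (nxt b) σ t g) : P.Run w s σ t (g + 1)
  | push {s : P.Node} {σ : List P.Stk} {a : P.Stk} {s' : P.Node} {t g : ℕ}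
      (h : P.act s = Step.push a s') (r : P.Run w s' (a :: σ) t g) : P.Run w s σ t g
  | pop {s : P.Node} {σ : List P.Stk} {a : P.Stk} {nxt : P.Stk → P.Node} {t g : ℕ}
      (h : P.act s = Step.pop nxt) (r : P.Run w (nxt a) σ t g) : P.Run w s (a :: σ) t g

variable {n N G : ℕ}

/-- The action of the deterministic program with the guesses `γ`; a guess is a push and a pop. -/
def dact (hN : 0 < N) (W : Fin n → Sym ⊕ Fin N) (γ : Fin G → Bool) {Q S : Type} (q0 : Q)
    (j : Fin (G + 1)) (e : Bool) :
    Step n Q S → Act (Fin N) Bool (Q × Fin (G + 1) × Bool) (Option S)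
  | Step.query i nxt =>
    match W i with
    | Sum.inl c => Act.query ⟨0, hN⟩ (fun _ => (nxt c, j, false))
    | Sum.inr u => Act.query u (fun b => (nxt (dig b), j, false))
  | Step.guess nxt =>
    if h : j.val < G then
      if e = true then Act.pop (fun _ => (nxt (γ ⟨j.val, h⟩), ⟨j.val + 1, by omega⟩, false))
      else Act.push none (q0, j, true)
    else Act.out false
  | Step.push a q => Act.push (some a) (q, j, false)
  | Step.pop nxt => Act.pop (fun o => o.elim (q0, j, false) (fun a => (nxt a, j, false)))
  | Step.stop b => Act.out b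

/-- The deterministic program with the guesses `γ`, reading the variables of which the symbols of
the word are made. -/
def toPP (hN : 0 < N) (W : Fin n → Sym ⊕ Fin N) (P : NSProg n) (γ : Fin G → Bool) :
    PP (Fin N) Bool where
  State := P.Node × Fin (G + 1) × Bool
  Sym := Option P.Stk
  start := (P.start, 0, false)
  act := fun s => dact hN W γ s.1 s.2.1 s.2.2 (P.act s.1)

theorem toPP_card (hN : 0 < N) (W : Fin n → Sym ⊕ Fin N) (P : NSProg n) (γ : Fin G → Bool) :
    Fintype.card (toPP hN W P γ).State = Fintype.card P.Node * ((G + 1) * 2) := by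
  show Fintype.card (P.Node × Fin (G + 1) × Bool) = _
  rw [Fintype.card_prod, Fintype.card_prod, Fintype.card_fin, Fintype.card_bool]

theorem dact_query (hN : 0 < N) (W : Fin n → Sym ⊕ Fin N) (γ : Fin G → Bool) {Q S : Type} (q0 : Q)
    (j : Fin (G + 1)) (e : Bool) (i : Fin n) (nxt : Sym → Q) :
    ∃ (u : Fin N) (nxt' : Bool → Q × Fin (G + 1) × Bool),
      dact (S := S) hN W γ q0 j e (Step.query i nxt) = Act.query u nxt' ∧
      ∀ x : Pt N, nxt' (x u) = (nxt (sv x (W i)), j, false) := by
  rcases hW : W i with c | u
  · exact ⟨⟨0, hN⟩, fun _ => (nxt c, j, false), by simp [dact, hW], fun x => by simp [sv]⟩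
  · exact ⟨u, fun b => (nxt (dig b), j, false), by simp [dact, hW], fun x => by simp [sv]⟩

section

variable (hN : 0 < N) (W : Fin n → Sym ⊕ Fin N) (P : NSProg n)

/-- completeness -/
theorem complete (x : Pt N) {s : P.Node} {σ : List P.Stk} {t g : ℕ}
    (h : P.Run (fun i => sv x (W i)) s σ t g) : ∀ j : ℕ, (hj : j + g ≤ G) →
      ∃ bs : ℕ → Bool, ∀ γ : Fin G → Bool,
      (∀ a : Fin G, j ≤ a.val → a.val < j + g → γ a = bs a.val) →
      ∃ l, (toPP hN W P γ).Runs x (s, ⟨j, by omega⟩, false) (σ.map some) l true ∧
        l.length = t := by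
  induction h with
  | @accept s σ h =>
    intro j hj
    refine ⟨fun _ => false, fun γ _ => ⟨[], PP.Runs.out ?_, rfl⟩⟩
    show dact hN W γ s ⟨j, _⟩ false (P.act s) = _
    rw [h]
    rfl
  | @query s σ i nxt t g h r ih =>
    intro j hj
    obtain ⟨bs, hbs⟩ := ih j hj
    refine ⟨bs, fun γ hγ => ?_⟩
    obtain ⟨l, h1, h2⟩ := hbs γ hγ
    obtain ⟨u, nxt', h3, h4⟩ := dact_query (S := P.Stk) hN W γ s ⟨j, by omega⟩ false i nxt
    refine ⟨u :: l, PP.Runs.query (nxt := nxt') ?_ ?_, by simp [h2]⟩
    · show dact hN W γ s ⟨j, _⟩ false (P.act s) = _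
      rw [h]
      exact h3
    · rw [h4 x]
      exact h1
  | @guess s σ nxt t g b h r ih =>
    intro j hj
    obtain ⟨bs, hbs⟩ := ih (j + 1) (by omega)
    refine ⟨fun a => if a = j then b else bs a, fun γ hγ => ?_⟩
    obtain ⟨l, h1, h2⟩ := hbs γ (fun a ha1 ha2 => by
      rw [hγ a (by omega) (by omega)]
      show (if a.val = j then b else bs a.val) = _
      rw [if_neg (by omega)])
    have hjG : j < G := by omega
    have h3 : γ ⟨j, hjG⟩ = b := by
      rw [hγ ⟨j, hjG⟩ le_rfl (by show j < j + (g + 1); omega)]
      show (if j = j then b else bs j) = b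
      rw [if_pos rfl]
    refine ⟨l, PP.Runs.push (a := none) (q' := (s, ⟨j, by omega⟩, true)) ?_
      (PP.Runs.pop (nxt := fun _ => (nxt (γ ⟨j, hjG⟩), ⟨j + 1, by omega⟩, false)) ?_ ?_), h2⟩
    · show dact hN W γ s ⟨j, _⟩ false (P.act s) = _
      rw [h]
      show (if h : j < G then _ else _) = _
      rw [dif_pos hjG]
      rfl
    · show dact hN W γ s ⟨j, _⟩ true (P.act s) = _
      rw [h]
      show (if h : j < G then _ else _) = _
      rw [dif_pos hjG]
      rfl
    · rw [h3]
      exact h1
  | @push s σ a s' t g h r ih =>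
    intro j hj
    obtain ⟨bs, hbs⟩ := ih j hj
    refine ⟨bs, fun γ hγ => ?_⟩
    obtain ⟨l, h1, h2⟩ := hbs γ hγ
    refine ⟨l, PP.Runs.push (a := some a) (q' := (s', ⟨j, by omega⟩, false)) ?_ h1, h2⟩
    show dact hN W γ s ⟨j, _⟩ false (P.act s) = _
    rw [h]
    rfl
  | @pop s σ a nxt t g h r ih =>
    intro j hj
    obtain ⟨bs, hbs⟩ := ih j hj
    refine ⟨bs, fun γ hγ => ?_⟩
    obtain ⟨l, h1, h2⟩ := hbs γ hγ
    refine ⟨l, PP.Runs.pop (P := toPP hN W P γ) (a := some a)
      (nxt := fun o : Option P.Stk => o.elim ((s, ⟨j, by omega⟩, false) :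
        P.Node × Fin (G + 1) × Bool) (fun a => (nxt a, ⟨j, by omega⟩, false)))
      ?_ h1, h2⟩
    show dact hN W γ s ⟨j, _⟩ false (P.act s) = _
    rw [h]
    rfl

/-- soundness -/
theorem sound (x : Pt N) (γ : Fin G → Bool) {st : (toPP hN W P γ).State}
    {σ' : List (toPP hN W P γ).Sym} {l : List (Fin N)} {b : Bool}
    (h : (toPP hN W P γ).Runs x st σ' l b) : b = true →
    (∀ (s : P.Node) (j : Fin (G + 1)) (σ : List P.Stk), st = (s, j, false) → σ' = σ.map some →
      ∃ g, j.val + g ≤ G ∧ P.Run (fun i => sv x (W i)) s σ l.length g) ∧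
    (∀ (s : P.Node) (j : Fin (G + 1)) (σ : List P.Stk) (nxt : Bool → P.Node),
      st = (s, j, true) → σ' = none :: σ.map some → P.act s = Step.guess nxt →
      ∃ g, j.val + g ≤ G ∧ P.Run (fun i => sv x (W i)) s σ l.length g) := by
  induction h with
  | @out st σ' b h =>
    intro hb
    subst hb
    constructor
    · rintro s j σ rfl rfl
      have h1 : dact hN W γ s j false (P.act s) = Act.out true := h
      rcases hs : P.act s with ⟨i, nxt⟩ | ⟨nxt⟩ | ⟨a, q'⟩ | ⟨nxt⟩ | ⟨b⟩
      · rw [hs] at h1
        obtain ⟨u, nxt', h3, -⟩ := dact_query (S := P.Stk) hN W γ s j false i nxt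
        rw [h3] at h1
        cases h1
      · rw [hs] at h1
        unfold dact at h1
        by_cases hj : j.val < G
        · simp [dif_pos hj] at h1
        · simp [dif_neg hj] at h1
      · rw [hs] at h1
        cases h1
      · rw [hs] at h1
        cases h1
      · rw [hs] at h1
        have h2 : b = true := by
          injection h1
        subst h2
        exact ⟨0, by omega, NSProg.Run.accept hs⟩
    · rintro s j σ nxt rfl rfl hs
      have h1 : dact hN W γ s j true (P.act s) = Act.out true := h
      rw [hs] at h1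
      unfold dact at h1
      by_cases hj : j.val < G
      · simp [dif_pos hj] at h1
      · simp [dif_neg hj] at h1
  | @query st σ' i' nxt0 l b h r ih =>
    intro hb
    obtain ⟨ih1, ih2⟩ := ih hb
    constructor
    · rintro s j σ rfl rfl
      have h1 : dact hN W γ s j false (P.act s) = Act.query i' nxt0 := h
      rcases hs : P.act s with ⟨i, nxt⟩ | ⟨nxt⟩ | ⟨a, q'⟩ | ⟨nxt⟩ | ⟨b⟩
      · rw [hs] at h1
        obtain ⟨u, nxt', h3, h4⟩ := dact_query (S := P.Stk) hN W γ s j false i nxt
        rw [h3] at h1
        injection h1 with h5 h6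
        subst h5
        subst h6
        obtain ⟨g, h7, h8⟩ := ih1 (nxt (sv x (W i))) j σ (h4 x) rfl
        exact ⟨g, h7, NSProg.Run.query hs h8⟩
      · rw [hs] at h1
        unfold dact at h1
        by_cases hj : j.val < G
        · simp [dif_pos hj] at h1
        · simp [dif_neg hj] at h1
      · rw [hs] at h1
        cases h1
      · rw [hs] at h1
        cases h1
      · rw [hs] at h1
        cases h1
    · rintro s j σ nxt rfl rfl hs
      have h1 : dact hN W γ s j true (P.act s) = Act.query i' nxt0 := h
      rw [hs] at h1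
      unfold dact at h1
      by_cases hj : j.val < G
      · simp [dif_pos hj] at h1
      · simp [dif_neg hj] at h1
  | @push st σ' a' q0 l b h r ih =>
    intro hb
    obtain ⟨ih1, ih2⟩ := ih hb
    constructor
    · rintro s j σ rfl rfl
      have h1 : dact hN W γ s j false (P.act s) = Act.push a' q0 := h
      rcases hs : P.act s with ⟨i, nxt⟩ | ⟨nxt⟩ | ⟨a, q'⟩ | ⟨nxt⟩ | ⟨b⟩
      · rw [hs] at h1
        obtain ⟨u, nxt', h3, -⟩ := dact_query (S := P.Stk) hN W γ s j false i nxt
        rw [h3] at h1
        cases h1
      · rw [hs] at h1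
        unfold dact at h1
        by_cases hj : j.val < G
        · simp only [dif_pos hj, Bool.false_eq_true, if_false] at h1
          injection h1 with h5 h6
          exact ih2 s j σ nxt h6.symm (by rw [← h5]; rfl) hs
        · simp [dif_neg hj] at h1
      · rw [hs] at h1
        injection h1 with h5 h6
        obtain ⟨g, h7, h8⟩ := ih1 q' j (a :: σ) h6.symm (by rw [← h5]; rfl)
        exact ⟨g, h7, NSProg.Run.push hs h8⟩
      · rw [hs] at h1
        cases h1
      · rw [hs] at h1
        cases h1
    · rintro s j σ nxt rfl rfl hs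
      have h1 : dact hN W γ s j true (P.act s) = Act.push a' q0 := h
      rw [hs] at h1
      unfold dact at h1
      by_cases hj : j.val < G
      · simp [dif_pos hj] at h1
      · simp [dif_neg hj] at h1
  | @pop st a' σ' nxt0 l b h r ih =>
    intro hb
    obtain ⟨ih1, ih2⟩ := ih hb
    constructor
    · rintro s j σ rfl hσ
      have h1 : dact hN W γ s j false (P.act s) = Act.pop nxt0 := h
      rcases hs : P.act s with ⟨i, nxt⟩ | ⟨nxt⟩ | ⟨a, q'⟩ | ⟨nxt⟩ | ⟨b⟩
      · rw [hs] at h1
        obtain ⟨u, nxt', h3, -⟩ := dact_query (S := P.Stk) hN W γ s j false i nxt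
        rw [h3] at h1
        cases h1
      · rw [hs] at h1
        unfold dact at h1
        by_cases hj : j.val < G
        · simp [dif_pos hj] at h1
        · simp [dif_neg hj] at h1
      · rw [hs] at h1
        cases h1
      · rw [hs] at h1
        injection h1 with h5
        cases σ with
        | nil => cases hσ
        | cons a σ =>
          rw [List.map_cons] at hσ
          injection hσ with h6 h7
          subst h6
          subst h7
          obtain ⟨g, h8, h9⟩ := ih1 (nxt a) j σ (by rw [← h5]; rfl) rfl
          exact ⟨g, h8, NSProg.Run.pop hs h9⟩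
      · rw [hs] at h1
        cases h1
    · rintro s j σ nxt rfl hσ hs
      have h1 : dact hN W γ s j true (P.act s) = Act.pop nxt0 := h
      rw [hs] at h1
      unfold dact at h1
      by_cases hj : j.val < G
      · simp only [dif_pos hj, if_true] at h1
        injection h1 with h5
        injection hσ with h6 h7
        subst h7
        obtain ⟨g, h8, h9⟩ := ih1 (nxt (γ ⟨j.val, hj⟩)) ⟨j.val + 1, by omega⟩ σ
          (by rw [← h5]) rfl
        refine ⟨g + 1, ?_, NSProg.Run.guess _ hs h9⟩
        simp only at h8
        omega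
      · simp [dif_neg hj] at h1

end

end Pool.Agent.TH706.TS
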