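import Pool.Agent.TH706.TS.Core
import Pool.Agent.TH706.TS.Prog
import Pool.Agent.W895.TN.Main

set_option autoImplicit false
set_option linter.unusedSectionVars false

/-!
# Limited nondeterminism, an unlimited stack, and tautologies

(after `Pool.Agent.W895.TN.Main`)
-/

open Finset

namespace Pool.Agent.TH706.TS

open Pool.Agent.W952
open Pool.Agent.H822R5.LN Pool.Agent.W952.Mx Pool.Agent.W952.Fr Pool.Agent.W952.Ap
open Pool.Agent.H554R2.Sem Pool.Agent.H554R2.Coin
open Pool.Agent.W952.Sat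
open Pool.Agent.W895.TN (Taut taut_neg)
open Pool.Agent.W896.PD (PP Act)
open Pool.Agent.TH706.CD (OutIn)

open Classical in
/-- **Main theorem.** -/
theorem main (k : ℕ) : ∃ D : ℕ, 0 < D ∧ ∀ n ≥ D, ∀ (I : ℕ) (P : Fin I → NSProg n), 0 < I →
    (∀ i, Fintype.card (P i).Node < 2 ^ (n / D)) →
    (∀ i (e : Expr) (h : e.code.length = n),
      (∃ t g, t ≤ k * n ∧ g ≤ n / D ∧ (P i).Run (word e h) (P i).start [] t g) → Taut e) →
    ∃ (e : Expr) (h : e.code.length = n), Taut e ∧
      Nat.card {i // ∃ t g, t ≤ k * n ∧ g ≤ n / D ∧ (P i).Run (word e h) (P i).start [] t g} *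
        2 ^ (n / D) < I := by
  obtain ⟨p, l, D0, hp, hD0, hcore⟩ := core2 (960 * k)
  obtain ⟨m0, hfam⟩ := fam p l (by omega)
  obtain ⟨C, hC⟩ : ∃ C, C = 60 * (p * p) := ⟨_, rfl⟩
  have hC0 : 0 < C := by rw [hC]; positivity
  obtain ⟨m1, hm1⟩ : ∃ c, c = m0 + D0 + 10 := ⟨_, rfl⟩
  obtain ⟨D, hDdef⟩ : ∃ D, D = C * ((m1 * m1) * (m1 * m1)) + 960 * (3 * D0) := ⟨_, rfl⟩
  refine ⟨D, by omega, ?_⟩
  intro n hn I P hI hP hP1
  obtain ⟨m, hm2, hm3⟩ := root C n hC0
  have hmm : m1 ≤ m := by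
    by_contra h
    have h1 : m + 1 ≤ m1 := by omega
    have h2 : C * (((m + 1) * (m + 1)) * ((m + 1) * (m + 1))) ≤ C * ((m1 * m1) * (m1 * m1)) :=
      Nat.mul_le_mul_left _ (Nat.mul_le_mul (Nat.mul_le_mul h1 h1) (Nat.mul_le_mul h1 h1))
    omega
  have : NeZero m := ⟨by omega⟩
  obtain ⟨φ, j0, hφ1, hj0, hφ2, hφ3⟩ := hfam m (by omega)
  obtain ⟨N', hN'⟩ : ∃ N', N' = p * p * ((m * m) * (m * m)) := ⟨_, rfl⟩
  have hNN : p * p * nr 1 m = N' := by
    rw [hN']
    have hnr : nr 1 m = (1 * 1) * ((m * m) * (m * m)) := nr_eq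
    rw [hnr]; ring
  have hmN : 10 * m ≤ N' := by
    have h1 : 10 * m ≤ m * m := Nat.mul_le_mul_right m (by omega)
    have h2 : m * m ≤ (m * m) * (m * m) := Nat.le_mul_self _
    have h3 : (m * m) * (m * m) ≤ p * p * ((m * m) * (m * m)) :=
      Nat.le_mul_of_pos_left _ (by positivity)
    omega
  have hn1 : 60 * N' ≤ n := by
    rw [hN']
    calc 60 * (p * p * (m * m * (m * m))) = C * (m * m * (m * m)) := by rw [hC]; ring
      _ ≤ n := hm2
  have hn2 : n ≤ 960 * N' := by
    have h1 : (m + 1) * (m + 1) ≤ 4 * (m * m) := by nlinarith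
    calc n ≤ C * (((m + 1) * (m + 1)) * ((m + 1) * (m + 1))) := hm3.le
      _ ≤ C * ((4 * (m * m)) * (4 * (m * m))) :=
          Nat.mul_le_mul_left _ (Nat.mul_le_mul h1 h1)
      _ = 960 * N' := by rw [hC, hN']; ring
  have hpos : 0 < p * p * nr 1 m := by omega
  have hn0 : 0 < n := by omega
  -- the padded formula
  have hφ1' : φ.code.length ≤ 30 * N' := hφ1.trans (le_of_eq (by rw [hNN]))
  obtain ⟨j, hj⟩ : ∃ j, j = n - φ.code.length - 6 := ⟨_, rfl⟩
  have hjl : φ.code.length + j + 6 = n := by omega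
  have hjj : j0 ≤ j := by omega
  let ψ : TE (p * p * nr 1 m) := .neg (.and φ (.var (List.replicate j (Sum.inr false))))
  have hψl : ψ.code.length = n := by
    show (TE.neg (TE.and φ (.var (List.replicate j (Sum.inr false))))).code.length = n
    rw [len_neg, len_and, len_var, List.length_replicate]
    omega
  have hψs : ∀ x : Pt (p * p * nr 1 m), Taut (ψ.inst x) ↔
      ∀ γ : Mu p l × Rest 1 m, Fm γ x = 0 := by
    intro x
    have h0 : Taut (ψ.inst x) ↔
        ¬ ((TE.and φ (.var (List.replicate j (Sum.inr false)))).inst x).Satisfiable :=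
      taut_neg _
    have h1 : ((TE.and φ (.var (List.replicate j (Sum.inr false)))).inst x).Satisfiable ↔
        ∃ γ : Mu p l × Rest 1 m, Fm γ x ≠ 0 := by
      rw [sat_iff, ← hφ3 x]
      constructor
      · rintro ⟨v, hv, -⟩
        exact ⟨v, hv⟩
      · intro hv
        obtain ⟨v, h1, h2⟩ := hφ2 ((List.replicate j (Sum.inr false)).map (dv x))
          (by simpa using hjj) x hv
        exact ⟨v, h1, h2⟩
    rw [h0, h1]
    push Not
    rfl
  have hlen : ∀ x, (ψ.inst x).code.length = n := fun x => (len_inst x ψ).trans hψl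
  let W : Fin n → Sym ⊕ Fin (p * p * nr 1 m) := fun i => ψ.code.get (i.cast hψl.symm)
  have hword : ∀ x, word (ψ.inst x) (hlen x) = fun i => sv x (W i) := by
    intro x
    funext i
    simp only [word, W, List.get_eq_getElem, Fin.val_cast]
    have h1 := code_inst x ψ
    rw [List.getElem_of_eq h1, List.getElem_map]
  -- the deterministic programs
  obtain ⟨G, hG⟩ : ∃ G, G = n / D := ⟨_, rfl⟩
  have hGn : 3 * G ≤ p * p * nr 1 m / D0 := by
    rw [Nat.le_div_iff_mul_le hD0, hNN]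
    have h1 : G * D ≤ n := by rw [hG]; exact Nat.div_mul_le_self _ _
    have h2 : G * (960 * (3 * D0)) ≤ G * D := Nat.mul_le_mul_left _ (by omega)
    have h3 : 960 * (3 * G * D0) ≤ 960 * N' := by
      calc 960 * (3 * G * D0) = G * (960 * (3 * D0)) := by ring
        _ ≤ _ := h2.trans (h1.trans hn2)
    omega
  obtain ⟨τ, hτ⟩ : ∃ τ, τ = k * n := ⟨_, rfl⟩
  have hτn : τ ≤ 960 * k * (p * p * nr 1 m) := by
    rw [hτ, hNN]
    calc k * n ≤ k * (960 * N') := Nat.mul_le_mul_left _ hn2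
      _ = _ := by ring
  obtain ⟨R, hR⟩ : ∃ R : Fin I × (Fin G → Bool) → PP (Fin (p * p * nr 1 m)) Bool,
    R = fun q => toPP hpos W (P q.1) q.2 := ⟨_, rfl⟩
  have hRc : ∀ q, Fintype.card (R q).State ≤ 2 ^ (p * p * nr 1 m / D0) := by
    intro q
    have h1 : Fintype.card (R q).State = Fintype.card (P q.1).Node * ((G + 1) * 2) := by
      rw [hR]
      exact toPP_card hpos W (P q.1) q.2
    rw [h1]
    have h2 : (2 : ℕ) ^ (n / D) = 2 ^ G := by rw [hG]
    rcases Nat.eq_zero_or_pos G with h0 | h0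
    · have h3 : Fintype.card (P q.1).Node < 2 ^ G := (hP q.1).trans_le (le_of_eq h2)
      have h5 : (2 : ℕ) ^ G = 1 := by rw [h0, pow_zero]
      have h4 : Fintype.card (P q.1).Node = 0 := by omega
      rw [h4, zero_mul]
      exact Nat.zero_le _
    · calc _ ≤ 2 ^ G * (2 ^ G * 2 ^ G) := Nat.mul_le_mul ((hP q.1).le.trans (le_of_eq h2))
            (Nat.mul_le_mul Nat.lt_two_pow_self (Nat.le_self_pow (by omega) 2))
        _ = 2 ^ (3 * G) := by rw [← pow_add, ← pow_add]; congr 1; ring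
        _ ≤ _ := Nat.pow_le_pow_right (by norm_num) hGn
  have hRs : ∀ q x, OutIn (R q) τ true x → ∀ γ : Mu p l × Rest 1 m, Fm γ x = 0 := by
    rintro q x ⟨l', hl', hlen'⟩
    rw [hR] at hl'
    obtain ⟨g, h2, h3⟩ := (sound hpos W (P q.1) x q.2 hl' rfl).1 _ _ [] rfl rfl
    rw [← hword x] at h3
    have h4 : g ≤ n / D := by
      rw [← hG]
      have : (0 : ℕ) + g ≤ G := h2
      omega
    exact (hψs x).1 (hP1 q.1 _ (hlen x) ⟨_, g, by rw [← hτ]; exact hlen', h4, h3⟩)
  have hcore' := fun q => hcore m (by omega) (R q) (hRc q) τ hτn (hRs q)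
  by_contra hneg
  push Not at hneg
  obtain ⟨G0, hG0⟩ : ∃ G0 : Finset (Pt (p * p * nr 1 m)),
    G0 = univ.filter (fun x => ∀ γ : Mu p l × Rest 1 m, Fm γ x = 0) := ⟨_, rfl⟩
  obtain ⟨A, hA⟩ : ∃ A : Fin I × (Fin G → Bool) → Finset (Pt (p * p * nr 1 m)),
    A = fun q => univ.filter (fun x => OutIn (R q) τ true x) := ⟨_, rfl⟩
  have hc : ∀ q, (A q).card * 2 ^ (p * p * nr 1 m / D0) < G0.card := by
    intro q
    rw [hA, hG0]
    exact hcore' q
  -- every common zero is certified by many programs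
  have hmany : ∀ x ∈ G0, I ≤ (univ.filter (fun q => x ∈ A q)).card * 2 ^ G := by
    intro x hx
    rw [hG0, mem_filter] at hx
    have h1 := hneg (ψ.inst x) (hlen x) ((hψs x).2 hx.2)
    rw [← hG] at h1
    refine h1.trans (Nat.mul_le_mul_right _ ?_)
    rw [Nat.card_eq_fintype_card, Fintype.card_subtype]
    have h2 : ∀ i : Fin I, ∃ γ : Fin G → Bool, (∃ t g, t ≤ k * n ∧ g ≤ G ∧
        (P i).Run (word (ψ.inst x) (hlen x)) (P i).start [] t g) → x ∈ A (i, γ) := by
      intro i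
      by_cases h3 : ∃ t g, t ≤ k * n ∧ g ≤ G ∧
        (P i).Run (word (ψ.inst x) (hlen x)) (P i).start [] t g
      · obtain ⟨t, g, h4, h5, h6⟩ := h3
        rw [hword x] at h6
        obtain ⟨bs, h7⟩ := complete (G := G) hpos W (P i) x h6 0 (by omega)
        refine ⟨fun a => bs a.val, fun _ => ?_⟩
        obtain ⟨l', h8, h9⟩ := h7 (fun a => bs a.val) (fun a _ _ => rfl)
        rw [hA, mem_filter]
        refine ⟨mem_univ _, l', ?_, ?_⟩
        · rw [hR]
          exact h8
        · rw [h9, hτ]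
          exact h4
      · exact ⟨fun _ => false, fun h4 => absurd h4 h3⟩
    choose c hc2 using h2
    refine Finset.card_le_card_of_injOn (fun i => (i, c i)) ?_ ?_
    · intro i hi
      rw [Finset.mem_coe, mem_filter] at hi
      rw [Finset.mem_coe, mem_filter]
      exact ⟨mem_univ _, hc2 i hi.2⟩
    · intro i _ i' _ h3
      exact (Prod.mk.inj h3).1
  -- counting
  have hsum1 : G0.card * I ≤ (∑ q, (A q).card) * 2 ^ G := by
    calc G0.card * I = ∑ _x ∈ G0, I := by rw [Finset.sum_const, smul_eq_mul]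
      _ ≤ ∑ x ∈ G0, (univ.filter (fun q => x ∈ A q)).card * 2 ^ G := Finset.sum_le_sum hmany
      _ = (∑ x ∈ G0, (univ.filter (fun q => x ∈ A q)).card) * 2 ^ G := by
          rw [Finset.sum_mul]
      _ ≤ (∑ q, (A q).card) * 2 ^ G := by
          apply Nat.mul_le_mul_right
          have h1 : ∑ x ∈ G0, (univ.filter (fun q => x ∈ A q)).card =
              ∑ q, (G0.filter (fun x => x ∈ A q)).card := by
            simp only [Finset.card_eq_sum_ones, Finset.sum_filter]
            exact Finset.sum_comm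
          rw [h1]
          refine Finset.sum_le_sum fun q _ => Finset.card_le_card ?_
          intro x hx
          exact (mem_filter.1 hx).2
  have hG00 : 0 < G0.card := by
    have q : Fin I × (Fin G → Bool) := (⟨0, hI⟩, fun _ => false)
    exact lt_of_le_of_lt (Nat.zero_le _) (hc q)
  have hsum2 : (∑ q, (A q).card) * 2 ^ (p * p * nr 1 m / D0) < I * 2 ^ G * G0.card := by
    rw [Finset.sum_mul]
    calc ∑ q, (A q).card * 2 ^ (p * p * nr 1 m / D0) < ∑ _q : Fin I × (Fin G → Bool), G0.card :=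
          Finset.sum_lt_sum_of_nonempty ⟨(⟨0, hI⟩, fun _ => false), mem_univ _⟩
            fun q _ => hc q
      _ = I * 2 ^ G * G0.card := by
          rw [Finset.sum_const, Finset.card_univ, Fintype.card_prod, Fintype.card_fun,
            Fintype.card_fin, Fintype.card_fin, Fintype.card_bool, smul_eq_mul]
  have h1 : G0.card * I * 2 ^ (2 * G) ≤ (∑ q, (A q).card) * 2 ^ G *
      2 ^ (p * p * nr 1 m / D0) :=
    Nat.mul_le_mul hsum1 (Nat.pow_le_pow_right (by norm_num) (by omega))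
  have h2 : (∑ q, (A q).card) * 2 ^ G * 2 ^ (p * p * nr 1 m / D0) <
      I * 2 ^ G * G0.card * 2 ^ G := by
    calc (∑ q, (A q).card) * 2 ^ G * 2 ^ (p * p * nr 1 m / D0) =
        ((∑ q, (A q).card) * 2 ^ (p * p * nr 1 m / D0)) * 2 ^ G := by ring
      _ < _ := Nat.mul_lt_mul_of_pos_right hsum2 (by positivity)
  have h3 : I * 2 ^ G * G0.card * 2 ^ G = G0.card * I * 2 ^ (2 * G) := by
    have : (2 : ℕ) ^ (2 * G) = 2 ^ G * 2 ^ G := by rw [← pow_add]; congr 1; ring
    rw [this]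
    ring
  omega

end Pool.Agent.TH706.TS
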